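import Pool.Agent.N642.PR.WC

/-!
# The polarized relation `(κ, κ⁺) → (κ, κ)` at singular cardinals of weakly compact cofinality,
and a criterion for arbitrary cofinality
-/

set_option autoImplicit false

open Cardinal Set

namespace Pool.Agent.Results.MP_f61043_lc.WeaklyCompactCofinality

/-- The polarized partition relation `(κ, κ⁺) → (κ κ, κ κ)^{1,1}`: for every partition of `X × Y`,
`|X| = κ`, `|Y| = κ⁺`, into two classes there are `A ⊆ X`, `B ⊆ Y` of cardinality `κ` such that
`A × B` is contained in one of the classes. -/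
def PolRel (κ : Cardinal.{0}) : Prop :=
  ∀ (X Y : Type) (c : X → Y → Bool), #X = κ → #Y = Order.succ κ →
    ∃ (A : Set X) (B : Set Y) (e : Bool), #A = κ ∧ #B = κ ∧ ∀ x ∈ A, ∀ y ∈ B, c x y = e

/-- The partition relation `μ → (μ)^n_2` for `n`-element subsets. -/
def Arrow (μ : Cardinal.{0}) (n : ℕ) : Prop :=
  ∀ (I : Type), #I = μ → ∀ f : Finset I → Bool, ∃ (H : Set I) (e : Bool), #H = μ ∧
    ∀ s : Finset I, (s : Set I) ⊆ H → s.card = n → f s = e

/-- A closed splitting family for `l` on `S`: a family `D` of subsets of `S` of cardinality at least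
`l` such that for every `s ∈ D` and every `t ⊆ S` some member of `D` is contained in `s ∩ t` or in
`s \ t`, and every chain of at most `l` members of `D` has a lower bound in `D`. -/
structure ClosedSplitting (l : Cardinal.{0}) {S : Type} (D : Set (Set S)) : Prop where
  large : ∀ s ∈ D, l ≤ #s
  split : ∀ s ∈ D, ∀ t : Set S, (∃ s' ∈ D, s' ⊆ s ∩ t) ∨ (∃ s' ∈ D, s' ⊆ s \ t)
  closed : ∀ C ⊆ D, IsChain (· ⊆ ·) C → #C ≤ l → ∃ s ∈ D, ∀ t ∈ C, s ⊆ t

/-- For singular strong limit `κ` the relation `(κ, κ⁺) → (κ κ, κ κ)^{1,1}` holds if the cofinality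
`μ` of `κ` satisfies `μ → (μ)^3_2` (for uncountable `μ`: is weakly compact), and it holds, for every
cofinality, if for every `l < κ` a set of cardinality less than `κ` carries a closed splitting
family for `l`. -/
theorem result : ∀ κ : Cardinal.{0}, κ.IsStrongLimit → κ.ord.cof < κ →
    (Arrow κ.ord.cof 3 → PolRel κ) ∧
    ((∀ l < κ, ∃ (S : Type) (D : Set (Set S)), #S < κ ∧ ClosedSplitting l D) → PolRel κ) := by
  intro κ hsl hsing
  refine ⟨fun h => Pool.Agent.N642.PR.polRel_of_arrow hsl hsing h, fun h => ?_⟩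
  refine Pool.Agent.N642.PR.polRel_of_closedSplitting hsl hsing fun l hl => ?_
  obtain ⟨S, D, hS, hD⟩ := h l hl
  exact ⟨S, D, hS, ⟨hD.large, hD.split, hD.closed⟩⟩

end Pool.Agent.Results.MP_f61043_lc.WeaklyCompactCofinality
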